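import Pool.Agent.H964.DP.Stm

/-!
# DP-TILT: the tilted Gaussian slice (helper154, for helper964)
-/

set_option autoImplicit false

open MeasureTheory ProbabilityTheory Filter Finset

namespace Pool.Agent.H154.DP

open Pool.Agent.H964.DP

/-- the covariance form -/
noncomputable def Cv (C : V → V → ℝ) : (V →₀ ℝ) →ₗ[ℝ] (V →₀ ℝ) →ₗ[ℝ] ℝ :=
  Finsupp.linearCombination ℝ (fun x => Finsupp.linearCombination ℝ (C x))

theorem Cv_single (C : V → V → ℝ) (x y : V) (c d : ℝ) :
    Cv C (Finsupp.single x c) (Finsupp.single y d) = c * d * C x y := by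
  simp [Cv, Finsupp.linearCombination_single]
  ring

theorem Cv_sum (C : V → V → ℝ) (a : V →₀ ℝ) :
    Cv C a a = ∑ x ∈ a.support, ∑ y ∈ a.support, a x * a y * C x y := by
  simp only [Cv, Finsupp.linearCombination_apply, Finsupp.sum, LinearMap.sum_apply,
    LinearMap.smul_apply, smul_eq_mul, Finset.mul_sum]
  refine Finset.sum_congr rfl fun x _ => Finset.sum_congr rfl fun y _ => ?_
  ring

/-- the linear functional of a slice -/
noncomputable def Ln (ω : V → ℝ) : (V →₀ ℝ) →ₗ[ℝ] ℝ := Finsupp.linearCombination ℝ ω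

theorem Ln_sum (ω : V → ℝ) (a : V →₀ ℝ) : Ln ω a = ∑ x ∈ a.support, a x * ω x := by
  simp only [Ln, Finsupp.linearCombination_apply, Finsupp.sum, smul_eq_mul]

theorem Ln_meas (a : V →₀ ℝ) : Measurable (fun ω : V → ℝ => Ln ω a) := by
  simp only [Ln_sum]
  fun_prop

theorem Cv_symm {C : V → V → ℝ} (hC : ∀ x y, C x y = C y x) (a b : V →₀ ℝ) :
    Cv C a b = Cv C b a := by
  have h : Cv C = (Cv C).flip := by
    refine Finsupp.lhom_ext fun x c => ?_
    refine Finsupp.lhom_ext fun y d => ?_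
    rw [LinearMap.flip_apply, Cv_single, Cv_single, hC x y]
    ring
  conv_lhs => rw [h]
  rfl

/-- moments from the laws of linear combinations -/
theorem moments {C : V → V → ℝ} (hC : ∀ x y, C x y = C y x) (hp : ∀ a, 0 ≤ Cv C a a)
    (μ : Measure (V → ℝ)) [IsProbabilityMeasure μ] (m : (V →₀ ℝ) →ₗ[ℝ] ℝ)
    (h : ∀ a, μ.map (fun ω => Ln ω a) = gaussianReal (m a) (Real.toNNReal (Cv C a a))) :
    (∀ a, MemLp (fun ω => Ln ω a) 2 μ) ∧ (∀ a, ∫ ω, Ln ω a ∂μ = m a) ∧
    ∀ a b, ∫ ω, Ln ω a * Ln ω b ∂μ = Cv C a b + m a * m b := by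
  have h1 : ∀ a, MemLp (fun ω => Ln ω a) 2 μ := by
    intro a
    have h2 : MemLp id 2 (μ.map (fun ω => Ln ω a)) := by
      rw [h a]; exact memLp_id_gaussianReal' 2 (by norm_num)
    exact (memLp_map_measure_iff (by fun_prop) (Ln_meas a).aemeasurable).1 h2
  have h2 : ∀ a, ∫ ω, Ln ω a ∂μ = m a := by
    intro a
    have h3 : ∫ x, x ∂(μ.map (fun ω => Ln ω a)) = ∫ ω, Ln ω a ∂μ :=
      integral_map (Ln_meas a).aemeasurable (by fun_prop)
    rw [← h3, h a, integral_id_gaussianReal]
  have h4 : ∀ a, ∫ ω, Ln ω a ^ 2 ∂μ = Cv C a a + m a ^ 2 := by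
    intro a
    have h5 : Var[fun ω => Ln ω a; μ] = Cv C a a := by
      have h6 : Var[id; μ.map (fun ω => Ln ω a)] = Var[fun ω => Ln ω a; μ] :=
        variance_map (by fun_prop) (Ln_meas a).aemeasurable
      rw [← h6, h a, variance_id_gaussianReal]
      exact Real.coe_toNNReal _ (hp a)
    have h7 := variance_eq_sub (h1 a)
    rw [h5, h2 a] at h7
    have h8 : ∫ ω, Ln ω a ^ 2 ∂μ = μ[(fun ω => Ln ω a) ^ 2] := rfl
    rw [h8]
    linarith
  refine ⟨h1, h2, fun a b => ?_⟩
  have h9 := h4 (a + b)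
  have ha := h4 a
  have hb := h4 b
  have i1 : Integrable (fun ω => Ln ω a ^ 2) μ := (h1 a).integrable_sq
  have i2 : Integrable (fun ω => Ln ω b ^ 2) μ := (h1 b).integrable_sq
  have i3 : Integrable (fun ω => Ln ω a * Ln ω b) μ := (h1 a).integrable_mul (h1 b)
  have e : ∀ ω, Ln ω (a + b) ^ 2 = Ln ω a ^ 2 + Ln ω b ^ 2 + 2 * (Ln ω a * Ln ω b) := by
    intro ω; rw [map_add]; ring
  simp only [e] at h9
  have i12 : Integrable (fun ω => Ln ω a ^ 2 + Ln ω b ^ 2) μ := i1.add i2
  rw [integral_add i12 (i3.const_mul 2), integral_add i1 i2, integral_const_mul, ha, hb]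
    at h9
  simp only [map_add, LinearMap.add_apply] at h9
  rw [Cv_symm hC b a] at h9
  linarith

/-- the laws of the linear combinations of a slice -/
theorem law {γ : Measure (V → ℝ)} {h : V → ℝ} (hγ : GS γ h) (a : V →₀ ℝ) :
    γ.map (fun ω => Ln ω a) =
      gaussianReal 0 (Real.toNNReal (Cv (fun x y => h (x - y)) a a)) := by
  have := hγ.lin a.support a
  rw [Cv_sum]
  simp only [Ln_sum]
  exact this

theorem Cv_nonneg {γ : Measure (V → ℝ)} {h : V → ℝ} (hγ : GS γ h) (a : V →₀ ℝ) :
    0 ≤ Cv (fun x y => h (x - y)) a a := by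
  rw [Cv_sum]; exact hγ.psd _ _

theorem exp_mom {γ : Measure (V → ℝ)} {h : V → ℝ} (hγ : GS γ h) (a : V →₀ ℝ) :
    Integrable (fun ω => Real.exp (Ln ω a)) γ ∧
    ∫ ω, Real.exp (Ln ω a) ∂γ = Real.exp (Cv (fun x y => h (x - y)) a a / 2) := by
  have := hγ.prob
  have h1 := mgf_gaussianReal (law hγ a) 1
  rw [Real.coe_toNNReal _ (Cv_nonneg hγ a)] at h1
  simp only [mgf, one_mul, zero_add, one_pow, mul_one] at h1
  refine ⟨?_, h1⟩
  by_contra hni
  rw [integral_undef hni] at h1
  exact absurd h1 (Real.exp_pos _).ne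

theorem tilt_law {γ : Measure (V → ℝ)} {h : V → ℝ} (hγ : GS γ h) (β : ℝ) (p : V) :
    IsProbabilityMeasure (tl γ β p) ∧ ∀ a : V →₀ ℝ, (tl γ β p).map (fun ω => Ln ω a) =
      gaussianReal (β * Cv (fun x y => h (x - y)) a (Finsupp.single p 1))
        (Real.toNNReal (Cv (fun x y => h (x - y)) a a)) := by
  have hpr := hγ.prob
  set C : V → V → ℝ := fun x y => h (x - y) with hC
  have hCs : ∀ x y, C x y = C y x := by
    intro x y
    have := hγ.symm (x - y)
    rw [neg_sub] at this
    exact this.symm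
  have hs : ∀ ω : V → ℝ, β * ω p = Ln ω (Finsupp.single p β) := by
    intro ω; simp [Ln, Finsupp.linearCombination_single]
  have hC0 : C p p = 1 := by simp [hC, hγ.zero]
  have hdm : Measurable (fun s : V → ℝ => ENNReal.ofReal (Real.exp (β * s p - β ^ 2 / 2))) := by
    fun_prop
  -- probability
  have hprob : IsProbabilityMeasure (tl γ β p) := by
    constructor
    rw [tl, withDensity_apply _ MeasurableSet.univ, Measure.restrict_univ]
    obtain ⟨i1, i2⟩ := exp_mom hγ (Finsupp.single p β)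
    have i3 : Integrable (fun s : V → ℝ => Real.exp (β * s p - β ^ 2 / 2)) γ := by
      have : (fun s : V → ℝ => Real.exp (β * s p - β ^ 2 / 2)) =
          fun s => Real.exp (Ln s (Finsupp.single p β)) * Real.exp (-(β ^ 2 / 2)) := by
        funext s; rw [hs, ← Real.exp_add]; ring_nf
      rw [this]; exact i1.mul_const _
    rw [← ofReal_integral_eq_lintegral_ofReal i3 (ae_of_all _ fun _ => (Real.exp_pos _).le)]
    have i4 : ∫ s : V → ℝ, Real.exp (β * s p - β ^ 2 / 2) ∂γ = 1 := by
      have : (fun s : V → ℝ => Real.exp (β * s p - β ^ 2 / 2)) =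
          fun s => Real.exp (Ln s (Finsupp.single p β)) * Real.exp (-(β ^ 2 / 2)) := by
        funext s; rw [hs, ← Real.exp_add]; ring_nf
      have hC1 : h (p - p) = 1 := hC0
      rw [this, integral_mul_const, i2, Cv_single, hC1, ← Real.exp_add]
      ring_nf
      exact Real.exp_zero
    rw [i4, ENNReal.ofReal_one]
  refine ⟨hprob, fun a => ?_⟩
  -- the moment generating function
  have hmgf : mgf (fun ω => Ln ω a) (tl γ β p) = mgf id (gaussianReal
      (β * Cv C a (Finsupp.single p 1)) (Real.toNNReal (Cv C a a))) := by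
    rw [mgf_id_gaussianReal]
    funext t
    rw [mgf, tl, integral_withDensity_eq_integral_toReal_smul hdm
      (ae_of_all _ fun _ => ENNReal.ofReal_lt_top)]
    have e1 : ∀ s : V → ℝ, (ENNReal.ofReal (Real.exp (β * s p - β ^ 2 / 2))).toReal •
        Real.exp (t * Ln s a) = Real.exp (Ln s (t • a + Finsupp.single p β)) *
          Real.exp (-(β ^ 2 / 2)) := by
      intro s
      rw [ENNReal.toReal_ofReal (Real.exp_pos _).le, smul_eq_mul, ← Real.exp_add, ← Real.exp_add,
        map_add, map_smul, ← hs, smul_eq_mul]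
      ring_nf
    simp only [e1]
    rw [integral_mul_const, (exp_mom hγ _).2, ← Real.exp_add,
      Real.coe_toNNReal _ (Cv_nonneg hγ a)]
    congr 1
    simp only [map_add, map_smul, LinearMap.add_apply, LinearMap.smul_apply, smul_eq_mul]
    have e2 : (Finsupp.single p β : V →₀ ℝ) = β • Finsupp.single p 1 := by
      rw [Finsupp.smul_single, smul_eq_mul, mul_one]
    have e3 : Cv C (Finsupp.single p β) a = β * Cv C a (Finsupp.single p 1) := by
      rw [Cv_symm hCs, e2, map_smul, smul_eq_mul]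
    have e4 : Cv C a (Finsupp.single p β) = β * Cv C a (Finsupp.single p 1) := by
      rw [e2, map_smul, smul_eq_mul]
    have e5 : Cv C (Finsupp.single p β) (Finsupp.single p β) = β ^ 2 := by
      rw [Cv_single, hC0]; ring
    rw [e3, e4, e5]
    ring
  have hcm : complexMGF (fun ω => Ln ω a) (tl γ β p) = complexMGF id (gaussianReal
      (β * Cv C a (Finsupp.single p 1)) (Real.toNNReal (Cv C a a))) := by
    have hE := integrableExpSet_eq_of_mgf hmgf
    have h1 := eqOn_complexMGF_of_mgf hmgf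
    rw [hE, integrableExpSet_id_gaussianReal, interior_univ] at h1
    funext z
    exact h1 (by simp)
  have h2 := Measure.ext_of_complexMGF_eq (Ln_meas a).aemeasurable aemeasurable_id hcm
  rw [h2, Measure.map_id]

/-- the weights of a translate of the box -/
noncomputable def bx (B : Finset V) (x : V) : V →₀ ℝ :=
  ((B.card : ℝ)⁻¹) • ∑ y ∈ B, Finsupp.single (x + y) (1 : ℝ)

theorem Ln_bx (B : Finset V) (x : V) (s : V → ℝ) : Ln s (bx B x) = sm B s x := by
  rw [bx, map_smul, map_sum, sm]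
  simp only [Ln, Finsupp.linearCombination_single, one_mul, smul_eq_mul]
  rw [inv_mul_eq_div]

theorem Cv_bx_single (h : V → ℝ) (B : Finset V) (x p : V) :
    Cv (fun x y => h (x - y)) (bx B x) (Finsupp.single p 1) = ht B h (x - p) := by
  rw [bx, map_smul, map_sum, LinearMap.smul_apply, LinearMap.sum_apply, ht, smul_eq_mul,
    inv_mul_eq_div]
  congr 1
  refine Finset.sum_congr rfl fun y _ => ?_
  rw [Cv_single, one_mul, one_mul]
  congr 1
  abel

theorem Cv_bx_bx (h : V → ℝ) (B : Finset V) (x x' : V) :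
    Cv (fun x y => h (x - y)) (bx B x) (bx B x') = hb B h (x - x') := by
  simp only [bx, hb, map_smul, map_sum, LinearMap.smul_apply, LinearMap.sum_apply, smul_eq_mul,
    Cv_single, one_mul]
  rw [← Finset.mul_sum, ← mul_assoc, ← mul_inv, ← sq, inv_mul_eq_div, Finset.sum_comm]
  congr 1
  refine Finset.sum_congr rfl fun y _ => Finset.sum_congr rfl fun y' _ => ?_
  congr 1
  abel

theorem t_TILT : Pool.Agent.H964.DP.S_TILT := by
  intro γ h hγ β B _
  have hpr := hγ.prob
  have hCs : ∀ x y : V, h (x - y) = h (y - x) := by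
    intro x y
    have := hγ.symm (x - y)
    rw [neg_sub] at this
    exact this.symm
  obtain ⟨a1, a2, a3⟩ := moments (C := fun x y => h (x - y)) hCs (Cv_nonneg hγ) γ 0
    (fun a => by rw [law hγ a]; rfl)
  refine ⟨fun x y => ?_, fun x => ?_, fun x => ?_, fun p => ?_⟩
  · have := a3 (bx B x) (bx B y)
    simp only [Ln_bx, Cv_bx_bx] at this
    rw [this]; simp
  · have := a1 (bx B x)
    simpa only [Ln_bx] using this
  · have := a2 (bx B x)
    simpa only [Ln_bx, LinearMap.zero_apply] using this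
  · obtain ⟨hP, hL⟩ := tilt_law hγ β p
    obtain ⟨b1, b2, b3⟩ := moments (C := fun x y => h (x - y)) hCs (Cv_nonneg hγ) (tl γ β p)
      (β • (Cv (fun x y => h (x - y))).flip (Finsupp.single p 1)) (fun a => by rw [hL a]; rfl)
    have hm : ∀ x, (β • (Cv (fun x y => h (x - y))).flip (Finsupp.single p 1)) (bx B x) =
        β * ht B h (x - p) := by
      intro x
      rw [LinearMap.smul_apply, LinearMap.flip_apply, Cv_bx_single, smul_eq_mul]
    refine ⟨hP, fun x => ?_, fun x => ?_, fun x y => ?_⟩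
    · have := b1 (bx B x)
      simpa only [Ln_bx] using this
    · have := b2 (bx B x)
      rw [hm] at this
      simpa only [Ln_bx] using this
    · have := b3 (bx B x) (bx B y)
      rw [hm, hm, Cv_bx_bx] at this
      simpa only [Ln_bx] using this

end Pool.Agent.H154.DP
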